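import Pool.Agent.Helper26.LU.Goals

/-!
# Project LU, packet T8: the unperturbed chain average
-/

namespace Pool.Agent.Helper77.LU

open MeasureTheory Matrix Real Filter Topology
open Pool.Agent.Helper26.LU

/-! ### Fubini for averages -/

theorem intc {μ : Measure ↥SO3} [IsFiniteMeasure μ] {f : ↥SO3 → ℝ} (hf : Continuous f) :
    Integrable f μ :=
  hf.integrable_of_hasCompactSupport (HasCompactSupport.of_compactSpace f)

theorem swap1 {μ : Measure ↥SO3} [IsFiniteMeasure μ] (G : ℝ → ↥SO3 → ℝ)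
    (hG : Continuous (Function.uncurry G)) {B : ℝ} (hB : ∀ x P, |G x P| ≤ B) (a b : ℝ) :
    ∫ P, (∫ x in a..b, G x P) ∂μ = ∫ x in a..b, (∫ P, G x P ∂μ) := by
  symm
  apply intervalIntegral_integral_swap
  have : IsFiniteMeasure (volume.restrict (Set.uIoc a b)) := ⟨by simp⟩
  refine Integrable.of_bound hG.aestronglyMeasurable B (Eventually.of_forall fun z => ?_)
  rw [Real.norm_eq_abs]
  exact hB z.1 z.2

theorem cont_inner {Φ : ↥SO3 → ℝ → ℝ → ℝ}
    (hc : Continuous (fun z : ↥SO3 × ℝ × ℝ => Φ z.1 z.2.1 z.2.2)) :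
    Continuous (fun z : ℝ × ↥SO3 => ∫ y in (0 : ℝ)..2 * π, Φ z.2 z.1 y) := by
  have hc1 : Continuous (Function.uncurry fun (z : ℝ × ↥SO3) (y : ℝ) => Φ z.2 z.1 y) :=
    hc.comp (by fun_prop : Continuous fun w : (ℝ × ↥SO3) × ℝ => (w.1.2, w.1.1, w.2))
  exact intervalIntegral.continuous_parametric_intervalIntegral_of_continuous' hc1 _ _

theorem cont_tavg {Φ : ↥SO3 → ℝ → ℝ → ℝ}
    (hc : Continuous (fun z : ↥SO3 × ℝ × ℝ => Φ z.1 z.2.1 z.2.2)) :
    Continuous (fun P : ↥SO3 => tavg (Φ P)) := by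
  have h2 : Continuous (Function.uncurry fun (P : ↥SO3) (x : ℝ) =>
      ∫ y in (0 : ℝ)..2 * π, Φ P x y) :=
    (cont_inner hc).comp (by fun_prop : Continuous fun w : ↥SO3 × ℝ => (w.2, w.1))
  unfold tavg
  exact (intervalIntegral.continuous_parametric_intervalIntegral_of_continuous' h2 _ _).div_const _

theorem fub {μ : Measure ↥SO3} [IsFiniteMeasure μ] {Φ : ↥SO3 → ℝ → ℝ → ℝ}
    (hc : Continuous (fun z : ↥SO3 × ℝ × ℝ => Φ z.1 z.2.1 z.2.2)) {B : ℝ}
    (hB : ∀ P x y, |Φ P x y| ≤ B) :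
    ∫ P, tavg (Φ P) ∂μ = tavg (fun x y => ∫ P, Φ P x y ∂μ) := by
  simp only [tavg]
  rw [integral_div]
  congr 1
  rw [swap1 (fun x P => ∫ y in (0 : ℝ)..2 * π, Φ P x y) (cont_inner hc)
    (B := B * |2 * π - 0|) (fun x P => by
      have := intervalIntegral.norm_integral_le_of_norm_le_const (a := 0) (b := 2 * π)
        (f := fun y => Φ P x y) (C := B) fun y _ => hB P x y
      simpa [Real.norm_eq_abs] using this)]
  refine intervalIntegral.integral_congr fun x _ => ?_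
  exact swap1 (fun y P => Φ P x y)
    (hc.comp (by fun_prop : Continuous fun w : ℝ × ↥SO3 => (w.2, x, w.1)))
    (fun y P => hB P x y) _ _

/-! ### Expansion of the kernel -/

theorem cont_entry (i j : Fin 3) : Continuous (fun R : ↥SO3 => R.1 i j) := by
  have h : Continuous (fun R : ↥SO3 => R.1) := continuous_subtype_val
  exact h.matrix_elem i j

theorem cont_trace : Continuous (fun R : ↥SO3 => Matrix.trace R.1) := by
  have h : Continuous (fun R : ↥SO3 => R.1) := continuous_subtype_val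
  exact h.matrix_trace

theorem expand {μ : Measure ↥SO3} [IsFiniteMeasure μ] {N : ℕ} {D : ℝ} {φ : ↥SO3 → ℝ}
    (hφ : Continuous φ)
    (h : ∀ m ≤ N, ∀ p q : Fin m → Fin 3,
      |∫ R : ↥SO3, (∏ i, R.1 (p i) (q i)) * φ R ∂μ| ≤ D) :
    ∀ r m : ℕ, m + r ≤ N → ∀ p q : Fin m → Fin 3,
      |∫ R : ↥SO3, (∏ i, R.1 (p i) (q i)) * ((1 + Matrix.trace R.1) ^ r * φ R) ∂μ|
        ≤ 4 ^ r * D := by
  intro r
  induction r with
  | zero =>
    intro m hm p q
    simpa using h m (by omega) p q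
  | succ r ih =>
    intro m hm p q
    have e1 : ∀ R : ↥SO3, (∏ i, R.1 (p i) (q i)) * ((1 + Matrix.trace R.1) ^ (r + 1) * φ R) =
        (∏ i, R.1 (p i) (q i)) * ((1 + Matrix.trace R.1) ^ r * φ R) +
          ∑ c : Fin 3, (∏ i, R.1 ((Fin.cons c p : Fin (m + 1) → Fin 3) i)
            ((Fin.cons c q : Fin (m + 1) → Fin 3) i)) * ((1 + Matrix.trace R.1) ^ r * φ R) := by
      intro R
      simp only [Fin.prod_univ_succ, Fin.cons_zero, Fin.cons_succ, Fin.sum_univ_three]
      rw [Matrix.trace_fin_three, pow_succ]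
      ring
    have hc : ∀ (m' : ℕ) (p' q' : Fin m' → Fin 3), Continuous (fun R : ↥SO3 =>
        (∏ i, R.1 (p' i) (q' i)) * ((1 + Matrix.trace R.1) ^ r * φ R)) := by
      intro m' p' q'
      refine Continuous.mul ?_ ?_
      · exact continuous_finsetProd _ fun i _ => cont_entry _ _
      · exact ((continuous_const.add cont_trace).pow r).mul hφ
    simp only [e1]
    rw [integral_add (intc (hc _ _ _)) (intc (continuous_finsetSum _ fun c _ => hc _ _ _)),
      integral_finsetSum _ fun c _ => intc (hc _ _ _)]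
    refine (abs_add_le _ _).trans ?_
    have h1 := ih m (by omega) p q
    have h2 : |∑ c : Fin 3, ∫ R : ↥SO3, (∏ i, R.1 ((Fin.cons c p : Fin (m + 1) → Fin 3) i)
        ((Fin.cons c q : Fin (m + 1) → Fin 3) i)) * ((1 + Matrix.trace R.1) ^ r * φ R) ∂μ|
        ≤ ∑ _c : Fin 3, 4 ^ r * D :=
      (Finset.abs_sum_le_sum_abs _ _).trans
        (Finset.sum_le_sum fun c _ => ih (m + 1) (by omega) _ _)
    rw [Finset.sum_const, Finset.card_univ, Fintype.card_fin, nsmul_eq_mul] at h2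
    calc _ ≤ 4 ^ r * D + ((3 : ℕ) : ℝ) * (4 ^ r * D) := add_le_add h1 h2
      _ = 4 ^ (r + 1) * D := by push_cast; ring

/-! ### Rotations near the identity -/

theorem near_one {P : M3} (hP : P ∈ SO3) {δ : ℝ} (hδ : 0 < δ)
    (htr : 3 - δ ^ 2 / 18 ≤ Matrix.trace P) (i j : Fin 3) : |P i j - (1 : M3) i j| ≤ δ / 3 := by
  have h1 := SO3_left hP
  have hd : ∀ c : Fin 3, P 0 c ^ 2 + P 1 c ^ 2 + P 2 c ^ 2 = 1 := by
    intro c
    have := congrFun (congrFun h1 c) c
    simp only [Matrix.mul_apply, Matrix.transpose_apply, Fin.sum_univ_three,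
      Matrix.one_apply_eq] at this
    linarith
  rw [Matrix.trace_fin_three] at htr
  have hsum : ∑ a : Fin 3, ∑ b : Fin 3, (P a b - (1 : M3) a b) ^ 2
      = 6 - 2 * (P 0 0 + P 1 1 + P 2 2) := by
    simp only [Fin.sum_univ_three, Matrix.one_apply]
    simp only [Fin.isValue, if_true, Fin.reduceEq, if_false]
    linarith [hd 0, hd 1, hd 2]
  have hle : (P i j - (1 : M3) i j) ^ 2 ≤ ∑ a : Fin 3, ∑ b : Fin 3, (P a b - (1 : M3) a b) ^ 2 := by
    refine (Finset.single_le_sum (f := fun b => (P i b - (1 : M3) i b) ^ 2)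
      (fun b _ => sq_nonneg _) (Finset.mem_univ j)).trans ?_
    exact Finset.single_le_sum (f := fun a => ∑ b : Fin 3, (P a b - (1 : M3) a b) ^ 2)
      (fun a _ => Finset.sum_nonneg fun b _ => sq_nonneg _) (Finset.mem_univ i)
  apply abs_le_of_sq_le_sq _ (by positivity)
  rw [hsum] at hle
  nlinarith

theorem near_mul {P Q : M3} (hP : P ∈ SO3) (hQ : Q ∈ SO3) {δ : ℝ} (hδ : 0 < δ)
    (htr : 3 - δ ^ 2 / 18 ≤ Matrix.trace P) (i j : Fin 3) : |Q i j - (P * Q) i j| ≤ δ := by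
  have h1 : (P * Q) i j - Q i j = ∑ l, (P i l - (1 : M3) i l) * Q l j := by
    have : (P * Q) i j - Q i j = ((P - 1) * Q) i j := by
      rw [sub_mul, one_mul, Matrix.sub_apply]
    rw [this, Matrix.mul_apply]
    rfl
  rw [abs_sub_comm, h1]
  refine (Finset.abs_sum_le_sum_abs _ _).trans ?_
  calc ∑ l, |(P i l - (1 : M3) i l) * Q l j| ≤ ∑ _l : Fin 3, δ / 3 := by
        refine Finset.sum_le_sum fun l _ => ?_
        rw [abs_mul]
        have h2 := near_one hP hδ htr i l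
        have h3 := SO3_entry_le hQ l j
        have h4 := abs_nonneg (P i l - (1 : M3) i l)
        have h5 := abs_nonneg (Q l j)
        nlinarith
    _ = δ := by
        rw [Finset.sum_const, Finset.card_univ, Fintype.card_fin, nsmul_eq_mul]
        push_cast
        ring

/-! ### The packet -/

theorem chain_SO3 {Q : M3} (hQ : Q ∈ SO3) (j : Fin 4) (x y : ℝ) :
    Q * Rot x * sg j * Rot y ∈ SO3 :=
  SO3_mul (SO3_mul (SO3_mul hQ (Rot_SO3 x)) (sg_SO3 j)) (Rot_SO3 y)

/-- uniform continuity of the averages -/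
theorem unif (hTU : G_TU) (hTA : G_TA) {η : ℝ} (hη : 0 < η) : ∃ δ : ℝ, 0 < δ ∧
    ∀ j k : Fin 4, j ≠ 0 → k ≠ 0 → ∀ Q ∈ SO3, ∀ Q' ∈ SO3, (∀ i l, |Q i l - Q' i l| ≤ δ) →
    ∀ (g : V → ℝ) (E : ℝ), ContinuousOn g sph → (∀ u ∈ sph, |g u| ≤ E) →
      |tavg (fun x y => g ((Q' * Rot x * sg j * Rot y) *ᵥ e k))
        - tavg (fun x y => g ((Q * Rot x * sg j * Rot y) *ᵥ e k))| ≤ η * E := by
  have h1 : ∀ z : Fin 4 × Fin 4, ∃ δ : ℝ, 0 < δ ∧ (z.1 ≠ 0 → z.2 ≠ 0 →
    ∀ Q ∈ SO3, ∀ Q' ∈ SO3, (∀ i l, |Q i l - Q' i l| ≤ δ) →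
    ∀ (g : V → ℝ) (E : ℝ), ContinuousOn g sph → (∀ u ∈ sph, |g u| ≤ E) →
      |tavg (fun x y => g ((Q' * Rot x * sg z.1 * Rot y) *ᵥ e z.2))
        - tavg (fun x y => g ((Q * Rot x * sg z.1 * Rot y) *ᵥ e z.2))| ≤ η * E) := by
    rintro ⟨j, k⟩
    by_cases hj : j = 0
    · exact ⟨1, one_pos, fun h => absurd hj h⟩
    by_cases hk : k = 0
    · exact ⟨1, one_pos, fun _ h => absurd hk h⟩
    obtain ⟨δ, hδ, h⟩ := hTU 0 (FA 0 0 j k) (fun _ => 1) (hTA 0 0 j k hj hk) η hη
    refine ⟨δ, hδ, fun _ _ Q hQ Q' hQ' hc g E hg hE => ?_⟩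
    have h2 := (h 0 (by rw [norm_zero]; exact hδ.le) Q hQ Q' hQ' hc).2.2.2 g E hg hE
    simp only [one_mul] at h2
    have e1 : ∀ S : M3, S ∈ SO3 → ∀ x y : ℝ, proj (FA 0 0 j k ((0, S), x, y)) =
        (S * Rot x * sg j * Rot y) *ᵥ e k := by
      intro S hS x y
      rw [FA_zero 0 0 hS, proj_self (mulVec_sph (chain_SO3 hS j x y) (e_sph k))]
    simp only [e1 Q hQ, e1 Q' hQ'] at h2
    exact h2
  choose d hd hP using h1
  refine ⟨Finset.univ.inf' Finset.univ_nonempty d, ?_, ?_⟩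
  · rw [Finset.lt_inf'_iff]
    exact fun z _ => hd z
  · intro j k hj hk Q hQ Q' hQ' hc
    exact hP (j, k) hj hk Q hQ Q' hQ' fun i l =>
      (hc i l).trans (Finset.inf'_le _ (Finset.mem_univ (j, k)))

theorem gT8 (hTU : G_TU) (hTA : G_TA) (hM2 : G_M2) (hM3 : G_M3) : G_T8 := by
  intro μ hμ η hη
  have := hμ.prob
  obtain ⟨δ, hδ, hU⟩ := unif hTU hTA (half_pos hη)
  obtain ⟨htr, hM3'⟩ := hM3 μ hμ
  obtain ⟨n, hI, hT⟩ := hM3' (δ ^ 2 / 18) (by positivity) (η / 4) (by positivity)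
  refine ⟨n, fun N hN => ?_⟩
  obtain ⟨C, hC, hM⟩ := hM2 μ hμ N
  set I : ℝ := ∫ R : ↥SO3, (1 + Matrix.trace R.1) ^ n ∂μ with hIdef
  refine ⟨4 ^ n * C / I, by positivity, ?_⟩
  intro g E τ hg hE hτ Q hQ j k hj hk
  have hE0 : 0 ≤ E := (abs_nonneg _).trans (hE _ (e_sph 0))
  -- the point
  set w : ℝ → ℝ → V := fun x y => (Q * Rot x * sg j * Rot y) *ᵥ e k with hw
  have hws : ∀ x y, w x y ∈ sph := fun x y => mulVec_sph (chain_SO3 hQ j x y) (e_sph k)
  have hwc : Continuous (fun z : ℝ × ℝ => w z.1 z.2) := by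
    have hR : Continuous (fun t : ℝ => Rot t) := by
      unfold Rot
      refine continuous_matrix fun a b => ?_
      fin_cases a <;> fin_cases b <;> simp <;> fun_prop
    have h1 : Continuous (fun z : ℝ × ℝ => Q * Rot z.1 * sg j * Rot z.2) :=
      ((continuous_const.matrix_mul (hR.comp continuous_fst)).matrix_mul
        continuous_const).matrix_mul (hR.comp continuous_snd)
    exact h1.matrix_mulVec continuous_const
  -- the kernel
  set ρ : ↥SO3 → ℝ := fun P => (1 + Matrix.trace P.1) ^ n with hρ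
  have hρc : Continuous ρ := (continuous_const.add cont_trace).pow n
  have hρ0 : ∀ P, 0 ≤ ρ P := fun P => pow_nonneg (htr P.1 P.2).1 n
  have hρ4 : ∀ P, ρ P ≤ 4 ^ n := fun P =>
    pow_le_pow_left₀ (htr P.1 P.2).1 (by linarith [(htr P.1 P.2).2]) n
  -- the averages
  set κ : ↥SO3 → ℝ := fun P => tavg (fun x y => g (P.1 *ᵥ w x y)) with hκ
  have hgc : Continuous (fun z : ↥SO3 × ℝ × ℝ => g (z.1.1 *ᵥ w z.2.1 z.2.2)) := by
    refine hg.comp_continuous ?_ fun z => mulVec_sph z.1.2 (hws _ _)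
    exact (continuous_subtype_val.comp continuous_fst).matrix_mulVec (hwc.comp continuous_snd)
  have hκc : Continuous κ := cont_tavg hgc
  have hκE : ∀ P, |κ P| ≤ E := fun P => tavg_le fun x y => hE _ (mulVec_sph P.2 (hws x y))
  have hκU : ∀ P : ↥SO3, 3 - δ ^ 2 / 18 ≤ Matrix.trace P.1 →
      |κ P - tavg (fun x y => g (w x y))| ≤ η / 2 * E := by
    intro P hP
    have h1 := hU j k hj hk Q hQ (P.1 * Q) (SO3_mul P.2 hQ)
      (fun i l => near_mul P.2 hQ hδ hP i l) g E hg hE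
    have e1 : ∀ x y : ℝ, (P.1 * Q * Rot x * sg j * Rot y) *ᵥ e k = P.1 *ᵥ w x y := by
      intro x y
      simp only [hw]
      rw [Matrix.mulVec_mulVec]
      simp only [mul_assoc]
    simp only [e1] at h1
    exact h1
  set K : ℝ := tavg (fun x y => g (w x y)) with hK
  have hKE : |K| ≤ E := tavg_le fun x y => hE _ (hws x y)
  -- the second term
  have hsec : |∫ P, ρ P * κ P ∂μ| ≤ 4 ^ n * (C * τ) := by
    have e1 : ∀ P, ρ P * κ P = tavg (fun x y => ρ P * g (P.1 *ᵥ w x y)) := by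
      intro P
      rw [tavg_smul]
    simp only [e1]
    rw [fub (Φ := fun P x y => ρ P * g (P.1 *ᵥ w x y))
      ((hρc.comp continuous_fst).mul hgc) (B := 4 ^ n * E) (fun P x y => by
        rw [abs_mul, abs_of_nonneg (hρ0 P)]
        exact mul_le_mul (hρ4 P) (hE _ (mulVec_sph P.2 (hws x y))) (abs_nonneg _)
          (by positivity))]
    refine tavg_le fun x y => ?_
    have hφ : Continuous (fun P : ↥SO3 => g (P.1 *ᵥ w x y)) :=
      hgc.comp (by fun_prop : Continuous fun P : ↥SO3 => (P, x, y))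
    have h2 := expand (μ := μ) (N := N) hφ
      (fun m hm p q => hM g τ hg hτ m hm p q (w x y) (hws x y)) n 0 (by omega)
      Fin.elim0 Fin.elim0
    simpa using h2
  -- the first term
  set T : Set ↥SO3 := {R : ↥SO3 | Matrix.trace R.1 ≤ 3 - δ ^ 2 / 18} with hTdef
  have hTm : MeasurableSet T := (isClosed_le cont_trace continuous_const).measurableSet
  have hfst : |∫ P, ρ P * (K - κ P) ∂μ| ≤ η * E * I := by
    have hi1 : Integrable (fun P => |ρ P * (K - κ P)|) μ :=
      intc (hρc.mul (continuous_const.sub hκc)).abs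
    have hi2 : Integrable ρ μ := intc hρc
    have hi3 : Integrable (T.indicator ρ) μ := hi2.indicator hTm
    have hi4 : Integrable (fun P => η / 2 * E * ρ P + 2 * E * T.indicator ρ P) μ :=
      (hi2.const_mul _).add (hi3.const_mul _)
    calc |∫ P, ρ P * (K - κ P) ∂μ| ≤ ∫ P, |ρ P * (K - κ P)| ∂μ := abs_integral_le_integral_abs
      _ ≤ ∫ P, (η / 2 * E * ρ P + 2 * E * T.indicator ρ P) ∂μ := by
          refine integral_mono hi1 hi4 fun P => ?_
          simp only
          rw [abs_mul, abs_of_nonneg (hρ0 P)]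
          by_cases hP : P ∈ T
          · rw [Set.indicator_of_mem hP]
            have h3 : |K - κ P| ≤ 2 * E := (abs_sub _ _).trans (by linarith [hκE P])
            have h4 : 0 ≤ η / 2 * E * ρ P := mul_nonneg (by positivity) (hρ0 P)
            nlinarith [mul_le_mul_of_nonneg_left h3 (hρ0 P)]
          · rw [Set.indicator_of_notMem hP, mul_zero, add_zero]
            have h3 := hκU P (by
              rw [hTdef, Set.mem_ofPred_eq, not_le] at hP
              exact hP.le)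
            rw [abs_sub_comm] at h3
            nlinarith [mul_le_mul_of_nonneg_left h3 (hρ0 P)]
      _ = η / 2 * E * I + 2 * E * ∫ P in T, ρ P ∂μ := by
          rw [integral_add (hi2.const_mul _) (hi3.const_mul _), integral_const_mul,
            integral_const_mul, integral_indicator hTm]
      _ ≤ η / 2 * E * I + 2 * E * (η / 4 * I) := by
          have := mul_le_mul_of_nonneg_left hT (by positivity : 0 ≤ 2 * E)
          linarith
      _ = η * E * I := by ring
  -- together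
  have hsum : K * I = ∫ P, ρ P * (K - κ P) ∂μ + ∫ P, ρ P * κ P ∂μ := by
    have i1 : Integrable (fun P => ρ P * (K - κ P)) μ :=
      intc (hρc.mul (continuous_const.sub hκc))
    have i2 : Integrable (fun P => ρ P * κ P) μ := intc (hρc.mul hκc)
    rw [← integral_add i1 i2]
    have e1 : ∀ P, ρ P * (K - κ P) + ρ P * κ P = K * ρ P := fun P => by ring
    simp only [e1]
    rw [integral_const_mul]
  have h5 : |K| * I ≤ η * E * I + 4 ^ n * (C * τ) := by
    have h6 : |K| * I = |K * I| := by rw [abs_mul, abs_of_pos hI]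
    rw [h6, hsum]
    exact (abs_add_le _ _).trans (add_le_add hfst hsec)
  have h7 : |K| ≤ (η * E * I + 4 ^ n * (C * τ)) / I := (le_div_iff₀ hI).2 h5
  refine h7.trans (le_of_eq ?_)
  field_simp

end Pool.Agent.Helper77.LU
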